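import Mathlib

namespace Pool.Agent.Results.MP_32086b_nt.Roots

open Polynomial

theorem pair_ind (P : ℕ → Prop) (h0 : P 0) (h : ∀ n, P n → P (2 * n) ∧ P (2 * n + 1)) :
    ∀ n, P n := by
  intro n
  induction n using Nat.strong_induction_on with
  | _ n ih =>
    rcases Nat.eq_zero_or_pos n with rfl | hn
    · exact h0
    by_cases h1 : n = 1
    · subst h1; exact (h 0 h0).2
    have := h (n / 2) (ih _ (by omega))
    rcases Nat.even_or_odd' n with ⟨k, rfl | rfl⟩
    · have e : 2 * k / 2 = k := by omega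
      rw [e] at this; exact this.1
    · have e : (2 * k + 1) / 2 = k := by omega
      rw [e] at this; exact this.2

theorem small (f : ℕ → ℚ) (a : ℚ) (ha : |a| ≤ 1 / 4) (h0 : f 0 = 0) (h1 : f 1 = 1)
    (he : ∀ n, f (2 * n) = a * f n) (ho : ∀ n, f (2 * n + 1) = f n + f (n + 1)) :
    ∀ n, (n % 2 = 0 → 2 * |f n| ≤ |f (n + 1)| ∧ 0 < |f (n + 1)|) ∧
      (n % 2 = 1 → 2 * |f (n + 1)| ≤ |f n| ∧ 0 < |f n|) := by
  apply pair_ind
  · simp [h0, h1]
  intro n ih
  have key : |f n| ≤ 2 * |f n + f (n + 1)| ∧ |f (n + 1)| ≤ 2 * |f n + f (n + 1)| ∧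
      0 < |f n + f (n + 1)| := by
    have t1 : |f (n + 1)| ≤ |f n + f (n + 1)| + |f n| := by
      have := abs_sub (f n + f (n + 1)) (f n); simpa using this
    have t2 : |f n| ≤ |f n + f (n + 1)| + |f (n + 1)| := by
      have := abs_sub (f n + f (n + 1)) (f (n + 1)); simpa using this
    have p1 := abs_nonneg (f n)
    have p2 := abs_nonneg (f (n + 1))
    rcases Nat.mod_two_eq_zero_or_one n with h | h
    · obtain ⟨u, v⟩ := ih.1 h
      refine ⟨by linarith, by linarith, by linarith⟩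
    · obtain ⟨u, v⟩ := ih.2 h
      refine ⟨by linarith, by linarith, by linarith⟩
  have p1 := abs_nonneg (f n)
  have p2 := abs_nonneg (f (n + 1))
  have e2 : 2 * n + 1 + 1 = 2 * (n + 1) := by ring
  refine ⟨⟨fun _ => ?_, fun h => by omega⟩, ⟨fun h => by omega, fun _ => ?_⟩⟩
  · rw [he, ho, abs_mul]
    refine ⟨?_, key.2.2⟩
    have : |a| * |f n| ≤ 1 / 4 * |f n| := mul_le_mul_of_nonneg_right ha p1
    linarith [key.1]
  · rw [e2, he, ho, abs_mul]
    refine ⟨?_, key.2.2⟩
    have : |a| * |f (n + 1)| ≤ 1 / 4 * |f (n + 1)| := mul_le_mul_of_nonneg_right ha p2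
    linarith [key.2.1]

theorem result (B : ℕ → ℤ[X]) (h0 : B 0 = 0) (h1 : B 1 = 1)
    (he : ∀ n, 1 ≤ n → B (2 * n) = X * B n)
    (ho : ∀ n, 1 ≤ n → B (2 * n + 1) = B n + B (n + 1))
    (a : ℚ) (n : ℕ) (hn : 1 ≤ n) (hr : aeval a (B n) = 0) :
    a = -1 ∨ a = -1 / 2 ∨ a = -1 / 3 ∨ a = 0 := by
  have he' : ∀ n, B (2 * n) = X * B n := by
    intro n
    rcases Nat.eq_zero_or_pos n with rfl | hn
    · simp [h0]
    · exact he n hn
  have ho' : ∀ n, B (2 * n + 1) = B n + B (n + 1) := by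
    intro n
    rcases Nat.eq_zero_or_pos n with rfl | hn
    · simp [h0]
    · exact ho n hn
  by_cases ha0 : a = 0
  · exact Or.inr (Or.inr (Or.inr ha0))
  set f : ℕ → ℚ := fun n => aeval a (B n) with hf
  have f0 : f 0 = 0 := by simp [hf, h0]
  have f1 : f 1 = 1 := by simp [hf, h1]
  have fe : ∀ n, f (2 * n) = a * f n := by intro n; simp [hf, he']
  have fo : ∀ n, f (2 * n + 1) = f n + f (n + 1) := by intro n; simp [hf, ho']
  have c0 : ∀ n, (B n).coeff 0 = ((n % 2 : ℕ) : ℤ) ∧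
      (B (n + 1)).coeff 0 = (((n + 1) % 2 : ℕ) : ℤ) := by
    apply pair_ind
    · simp [h0, h1]
    intro n ih
    have e2 : 2 * n + 1 + 1 = 2 * (n + 1) := by ring
    have s : (B n).coeff 0 + (B (n + 1)).coeff 0 = 1 := by
      rw [ih.1, ih.2]; omega
    have m1 : (2 * n + 1) % 2 = 1 := by omega
    refine ⟨⟨?_, ?_⟩, ?_, ?_⟩
    · rw [he']; simp
    · rw [ho', coeff_add, s, m1]; simp
    · rw [ho', coeff_add, s, m1]; simp
    · rw [e2, he']; simp
  have odd : ∀ n, 1 ≤ n → f n = 0 → ∃ m, m % 2 = 1 ∧ f m = 0 := by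
    intro n
    induction n using Nat.strong_induction_on with
    | _ n ih =>
      intro hn hz
      rcases Nat.even_or_odd' n with ⟨k, rfl | rfl⟩
      · rw [fe] at hz
        exact ih k (by omega) (by omega) ((mul_eq_zero.1 hz).resolve_left ha0)
      · exact ⟨_, by omega, hz⟩
  obtain ⟨m, hm, hz⟩ := odd n hn hr
  have hd : IsFractionRing.num ℤ a ∣ (B m).coeff 0 := num_dvd_of_is_root hz
  rw [(c0 m).1, hm] at hd
  have hu : IsFractionRing.num ℤ a = 1 ∨ IsFractionRing.num ℤ a = -1 :=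
    Int.isUnit_iff.1 (isUnit_of_dvd_one (by simpa using hd))
  have hq := IsFractionRing.mk'_num_den' ℤ a
  obtain ⟨e, he0⟩ : ∃ e : ℤ, a = 1 / (e : ℚ) := by
    rcases hu with hu | hu
    · refine ⟨(IsFractionRing.den ℤ a : ℤ), ?_⟩
      rw [hu] at hq
      refine hq.symm.trans ?_
      simp
    · refine ⟨-(IsFractionRing.den ℤ a : ℤ), ?_⟩
      rw [hu] at hq
      refine hq.symm.trans ?_
      simp [div_neg, neg_div]
  have hneg : a < 0 := by
    by_contra hpos
    have hp : 0 < a := lt_of_le_of_ne (not_lt.1 hpos) (Ne.symm ha0)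
    have pos : ∀ n, 0 ≤ f n ∧ 0 < f (n + 1) := by
      apply pair_ind
      · simp [f0, f1]
      intro n ih
      have e2 : 2 * n + 1 + 1 = 2 * (n + 1) := by ring
      refine ⟨⟨?_, ?_⟩, ?_, ?_⟩
      · rw [fe]; exact mul_nonneg hp.le ih.1
      · rw [fo]; linarith [ih.1, ih.2]
      · rw [fo]; linarith [ih.1, ih.2]
      · rw [e2, fe]; exact mul_pos hp ih.2
    have := (pos (m - 1)).2
    rw [show m - 1 + 1 = m by omega, hz] at this
    exact lt_irrefl _ this
  have hen : e < 0 := by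
    rw [he0] at hneg
    have : (e : ℚ) < 0 := by simpa using hneg
    exact_mod_cast this
  have hbig : -4 < e := by
    by_contra hle
    have hle' : (e : ℚ) ≤ -4 := by exact_mod_cast (not_lt.1 hle)
    have habs : |a| ≤ 1 / 4 := by
      rw [abs_of_neg hneg, he0, ← div_neg]
      exact one_div_le_one_div_of_le (by norm_num) (by linarith)
    have := ((small f a habs f0 f1 fe fo m).2 hm).2
    rw [hz] at this
    simp at this
  interval_cases e
  · right; right; left; rw [he0]; norm_num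
  · right; left; rw [he0]; norm_num
  · left; rw [he0]; norm_num

end Pool.Agent.Results.MP_32086b_nt.Roots
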